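import Pool.Agent.Helper87.PG.Stmts2

/-!
Part of module GENPT of `MP_39dd1a_ag` (hand-in `TwoGroups`): the vectors moved by an involution in
a direction in the cone.
-/

set_option autoImplicit false

namespace Pool.Agent.Helper87.PG

open MvPolynomial Pool.Agent.Helper48.VMRT Pool.Agent.Helper87.VM Pool.Agent.Helper87.TC

/-- A linear map onto `ℂ ^ (r + 1)` which vanishes on the kernel of `L`. -/
theorem genpt_lam {w r : ℕ} (hr : 1 ≤ r) (L : (Fin w → ℂ) →ₗ[ℂ] (Fin w → ℂ))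
    (hL : Module.finrank ℂ (LinearMap.ker L) + 2 * r ≤ w) :
    ∃ Lam : (Fin w → ℂ) →ₗ[ℂ] (Fin (r + 1) → ℂ), Function.Surjective Lam ∧
      ∀ u, L u = 0 → Lam u = 0 := by
  have h1 := LinearMap.finrank_range_add_finrank_ker L
  rw [Module.finrank_fin_fun] at h1
  have h2 : ((r + 1 : ℕ) : Cardinal) ≤ Module.rank ℂ (LinearMap.range L) := by
    rw [← Module.finrank_eq_rank, Nat.cast_le]
    omega
  obtain ⟨f, hf⟩ := Module.le_rank_iff_exists_linearMap.1 h2
  obtain ⟨g, hg⟩ := f.exists_leftInverse_of_injective (LinearMap.ker_eq_bot.2 hf)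
  refine ⟨g ∘ₗ L.rangeRestrict, ?_, ?_⟩
  · rw [LinearMap.coe_comp]
    refine Function.Surjective.comp (fun v => ⟨f v, ?_⟩) L.surjective_rangeRestrict
    exact congrArg (fun φ : (Fin (r + 1) → ℂ) →ₗ[ℂ] (Fin (r + 1) → ℂ) => φ v) hg
  · intro u hu
    have h3 : L.rangeRestrict u = 0 := Subtype.ext hu
    rw [LinearMap.comp_apply, h3, map_zero]

/-- The vectors `u` with `L (u + z) = 0` for some `z` in the cone are in a proper closed cone. -/
theorem genpt_aff {w r : ℕ} {Z : Set (Fin w → ℂ)} (hcone : ∀ a : ℂ, ∀ z ∈ Z, a • z ∈ Z)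
    (hZ : DimLE r Z) (hr : 1 ≤ r) (L : (Fin w → ℂ) →ₗ[ℂ] (Fin w → ℂ))
    (hL : Module.finrank ℂ (LinearMap.ker L) + 2 * r ≤ w) :
    ∃ B : Set (Fin w → ℂ), ZClosed B ∧ (∀ a : ℂ, ∀ u ∈ B, a • u ∈ B) ∧ (∃ u, u ∉ B) ∧
      ∀ u z, z ∈ Z → L (u + z) = 0 → u ∈ B := by
  obtain ⟨Lam, hs, h0⟩ := genpt_lam hr L hL
  obtain ⟨P, hP, hPZ⟩ := hZ (fun i => LinearMap.proj i ∘ₗ Lam)
  have hPZ' : ∀ z ∈ Z, eval (Lam z) P = 0 := fun z hz => hPZ z hz
  refine ⟨{u | ∀ a : ℂ, eval (Lam (a • u)) P = 0}, ?_, ?_, ?_, ?_⟩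
  · -- closed
    refine zclosed_of_eqs (Set.range fun a : ℂ => aeval (fun i : Fin (r + 1) =>
      (∑ k : Fin w, C (a * Lam (Pi.single k 1) i) * X k : MvPolynomial (Fin w) ℂ)) P) ?_
    intro u
    rw [Set.forall_mem_range, Set.mem_ofPred_eq]
    refine forall_congr' fun a => ?_
    rw [eval_aeval]
    have he : ev (fun i : Fin (r + 1) =>
        (∑ k : Fin w, C (a * Lam (Pi.single k 1) i) * X k : MvPolynomial (Fin w) ℂ)) u =
        Lam (a • u) := by
      funext i
      have h4 : Lam (a • u) = ∑ k : Fin w, (a * u k) • Lam (Pi.single k 1) := by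
        conv_lhs => rw [← Finset.univ_sum_single (a • u), map_sum]
        refine Finset.sum_congr rfl fun k _ => ?_
        rw [← map_smul, ← Pi.single_smul, smul_eq_mul, mul_one, Pi.smul_apply, smul_eq_mul]
      rw [h4, Finset.sum_apply]
      simp only [ev, map_sum, map_mul, eval_C, eval_X, Pi.smul_apply, smul_eq_mul]
      refine Finset.sum_congr rfl fun k _ => ?_
      ring
    rw [he]
  · -- cone
    intro a u hu b
    rw [smul_smul]
    exact hu (b * a)
  · -- proper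
    by_contra hcon
    push Not at hcon
    apply hP
    apply MvPolynomial.funext
    intro v
    obtain ⟨u, rfl⟩ := hs v
    have := hcon u 1
    rwa [one_smul] at this
  · intro u z hz h a
    have h5 : Lam (a • u) = Lam ((-a) • z) := by
      have h6 := h0 _ h
      rw [map_add] at h6
      rw [map_smul, map_smul, neg_smul, ← smul_neg, eq_neg_of_add_eq_zero_left h6]
    rw [h5]
    exact hPZ' _ (hcone _ _ hz)

/-- The coordinates are linear forms. -/
theorem genpt_rel {w r : ℕ} {Z : Set (Fin w → ℂ)} (hZ : DimLE r Z) : Rel r Z := by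
  intro e _
  obtain ⟨P, hP, h⟩ := hZ (fun i => LinearMap.proj (e i))
  exact ⟨P, hP, fun z hz => h z hz⟩

end Pool.Agent.Helper87.PG
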