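import Pool.Agent.Helper87.PG.Stmts2
import Pool.Agent.Helper28.TC.GENP

/-!
Part of module GENPT of `MP_39dd1a_ag` (hand-in `TwoGroups`): the vectors which a linear map sends
into a tangent space of the cone.
-/

set_option autoImplicit false

namespace Pool.Agent.Helper87.PG

open MvPolynomial Pool.Agent.Helper48.VMRT Pool.Agent.Helper87.VM Pool.Agent.Helper87.TC

theorem genpt_comap {V W : Type} [AddCommGroup V] [Module ℂ V] [FiniteDimensional ℂ V]
    [AddCommGroup W] [Module ℂ W] [FiniteDimensional ℂ W] (L : V →ₗ[ℂ] W) (S : Submodule ℂ W) :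
    Module.finrank ℂ (Submodule.comap L S) ≤
      Module.finrank ℂ (LinearMap.ker L) + Module.finrank ℂ S := by
  let φ : Submodule.comap L S →ₗ[ℂ] S := L.restrict fun x hx => hx
  have h1 := LinearMap.finrank_range_add_finrank_ker φ
  have h2 : Module.finrank ℂ (LinearMap.range φ) ≤ Module.finrank ℂ S :=
    Submodule.finrank_le _
  let j : LinearMap.ker φ →ₗ[ℂ] LinearMap.ker L :=
    { toFun := fun x => ⟨x.1.1, by
        have h := x.2
        rw [LinearMap.mem_ker] at h ⊢
        exact congrArg Subtype.val h⟩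
      map_add' := fun x y => rfl
      map_smul' := fun c x => rfl }
  have hj : Function.Injective j := by
    intro x y hxy
    apply Subtype.ext
    apply Subtype.ext
    exact congrArg (fun v : LinearMap.ker L => (v : V)) hxy
  have h3 := LinearMap.finrank_le_finrank_of_injective hj
  omega

/-- The vectors which `L` sends into a tangent space of the cone. -/
def TL (D : VD) (L : (Fin D.w → ℂ) →ₗ[ℂ] (Fin D.w → ℂ)) : Set (Fin D.w → ℂ) :=
  {u | ∃ z : Fin D.w → ℂ, z ≠ 0 ∧ z ∈ D.Z ∧ L u ∈ TT D.F z}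

theorem genpt_zcone {D : VD} (hD : D.Good) : ∀ a : ℂ, ∀ z ∈ D.Z, a • z ∈ D.Z := by
  intro a z hz
  obtain ⟨i, hi⟩ := Set.mem_iUnion.1 hz
  exact Set.mem_iUnion.2 ⟨i, hD.Zcone i a z hi⟩

theorem genpt_one_le {D : VD} (hD : D.Good) : 1 ≤ D.w := by
  obtain ⟨i0⟩ := hD.ine
  obtain ⟨z0, hz0, hz0ne⟩ := hD.Zne i0
  by_contra hcon
  apply hz0ne
  funext i
  exact absurd i.2 (by omega)

theorem genpt_tan (h1 : TC.ST_ELIM) (h3 : TC.ST_DIMT) (h4 : ST_TANDG) {D : VD} (hD : D.Good)
    {r : ℕ} (hZ : DimLE r D.Z) (L : (Fin D.w → ℂ) →ₗ[ℂ] (Fin D.w → ℂ))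
    (hL : Module.finrank ℂ (LinearMap.ker L) + 2 * r ≤ D.w) :
    ZClosed (TL D L) ∧ (∀ a : ℂ, ∀ u ∈ TL D L, a • u ∈ TL D L) ∧ ∃ u, u ∉ TL D L := by
  classical
  have hw : 1 ≤ D.w := genpt_one_le hD
  have hZcone := genpt_zcone hD
  have hrel : Rel r D.Z := by
    intro e _
    obtain ⟨P, hP, h⟩ := hZ (fun i => LinearMap.proj (e i))
    exact ⟨P, hP, fun z hz => h z hz⟩
  have hfd := hD.fd
  have ha1 : 1 ≤ D.a := le_trans (by norm_num) hfd.two_le
  have hTdim := h3 D.G D.ν D.w D.Z D.ρ D.a D.F D.ρν r hfd hrel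
  refine ⟨?_, ?_, ?_⟩
  · -- closed
    have hT1closed : ZClosed {u : Fin D.w → ℂ | ∃ z : Fin D.w → ℂ, z ≠ 0 ∧
        Sum.elim z u ∈ genp_W D.F D.Z} := by
      apply h1 (Fin D.w) (Fin D.w) (genp_W D.F D.Z) (genp_W_closed D.F hD.ZZcl)
      intro a z u hzu
      have hzu' : z ∈ D.Z ∧ u ∈ TT D.F z := hzu
      change a • z ∈ D.Z ∧ u ∈ TT D.F (a • z)
      refine ⟨hZcone a z hzu'.1, ?_⟩
      rw [genp_mem_TT]
      intro j
      have hj := (genp_mem_TT D.F z u).1 hzu'.2 j
      have he : ∀ i : Fin D.w, eval (ov 0 (a • z)) (pderiv (some i) (D.F j)) * u i =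
          a ^ (D.a - 1) * (eval (ov 0 z) (pderiv (some i) (D.F j)) * u i) := by
        intro i
        rw [← genp_eval_B, ← genp_eval_B, genp_hom_B ha1 D.F hfd.hom j i a z]
        ring
      simp only [he]
      rw [← Finset.mul_sum, hj, mul_zero]
    exact genp_zclosed_lin hT1closed L
  · -- cone
    rintro a u ⟨z, hz0, hz, hu⟩
    refine ⟨z, hz0, hz, ?_⟩
    rw [map_smul]
    exact Submodule.smul_mem _ a hu
  · -- proper
    have hsum : ∀ (z u : Fin D.w → ℂ) (j : D.ν),
        ∑ i, eval z (∑ k, genp_B D.F j k * C (L (Pi.single i 1) k)) * u i =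
        ∑ k, eval (ov 0 z) (pderiv (some k) (D.F j)) * L u k := by
      intro z u j
      have hLu : L u = ∑ i : Fin D.w, u i • L (Pi.single i 1) := by
        conv_lhs => rw [← Finset.univ_sum_single u, map_sum]
        refine Finset.sum_congr rfl fun i _ => ?_
        rw [← map_smul, ← Pi.single_smul, smul_eq_mul, mul_one]
      rw [hLu]
      simp only [map_sum, map_mul, eval_C, genp_eval_B, Finset.sum_apply, Pi.smul_apply,
        smul_eq_mul, Finset.sum_mul, Finset.mul_sum]
      rw [Finset.sum_comm]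
      refine Finset.sum_congr rfl fun k _ => Finset.sum_congr rfl fun i _ => ?_
      ring
    obtain ⟨u, hu⟩ := h4 D.w r (Module.finrank ℂ (LinearMap.ker L) + r) (D.a - 1) D.ν D.Z
      (fun j i => ∑ k, genp_B D.F j k * C (L (Pi.single i 1) k)) hw (by omega) hZcone hrel
      (by
        intro j i c z
        simp only [map_sum, map_mul, eval_C]
        rw [Finset.mul_sum]
        refine Finset.sum_congr rfl fun k _ => ?_
        rw [genp_hom_B ha1 D.F hfd.hom j k c z]
        ring) (by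
        intro z hz hz0
        refine le_trans ?_ (le_trans (genpt_comap L (TT D.F z))
          (Nat.add_le_add_left (hTdim z hz hz0) _))
        apply Submodule.finrank_mono
        intro u hu
        rw [LinearMap.mem_ker, Matrix.mulVecLin_apply, funext_iff] at hu
        rw [Submodule.mem_comap, genp_mem_TT]
        intro j
        rw [← hsum]
        exact hu j)
    refine ⟨u, ?_⟩
    rintro ⟨z, hz0, hz, hzu⟩
    obtain ⟨j, hj⟩ := hu z hz hz0
    apply hj
    rw [hsum]
    exact (genp_mem_TT D.F z (L u)).1 hzu j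

end Pool.Agent.Helper87.PG
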