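import Pool.Agent.Helper50.PG.Aff
import Pool.Agent.Helper50.PG.Tan

/-!
Module GENPT of `MP_39dd1a_ag` (hand-in `TwoGroups`): general points of the vector space.
-/

set_option autoImplicit false

namespace Pool.Agent.Helper87.PG

open MvPolynomial Pool.Agent.Helper48.VMRT Pool.Agent.Helper87.VM Pool.Agent.Helper87.TC

theorem st_GENPT (h1 : TC.ST_ELIM) (h3 : TC.ST_DIMT) (h4 : ST_TANDG) : ST_GENPT := by
  classical
  intro D m r hTD hr hZ hfix
  have hD := hTD.good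
  have hcone := genpt_zcone hD
  obtain ⟨i0⟩ := hD.ine
  obtain ⟨z0, hz0, hz0ne⟩ := hD.Zne i0
  have hz0Z : z0 ∈ D.Z := Set.mem_iUnion.2 ⟨i0, hz0⟩
  obtain ⟨h0, hh0⟩ : ∃ h : D.G, h ≠ 1 := by
    by_contra hcon
    push Not at hcon
    have hs : Subsingleton D.G := ⟨fun a b => by rw [hcon a, hcon b]⟩
    have hc := hTD.card
    rw [Nat.card_of_subsingleton (1 : D.G)] at hc
    have h2 : 1 < 2 ^ m := Nat.one_lt_two_pow (by have := hTD.pos; omega)
    omega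
  have hrw : 2 * r ≤ D.w := le_trans (Nat.le_add_left _ _) (hfix h0 hh0)
  have hker : Module.finrank ℂ (LinearMap.ker (LinearMap.id : (Fin D.w → ℂ) →ₗ[ℂ] _)) +
      2 * r ≤ D.w := by
    rw [LinearMap.ker_id, finrank_bot, zero_add]
    exact hrw
  have hB : ∀ h : D.G, ∃ B : Set (Fin D.w → ℂ), ZClosed B ∧ (∀ a : ℂ, ∀ u ∈ B, a • u ∈ B) ∧
      (∃ u, u ∉ B) ∧ (h ≠ 1 → ∀ u z, z ∈ D.Z →
        (D.ρ h - LinearMap.id : (Fin D.w → ℂ) →ₗ[ℂ] _) (u + z) = 0 → u ∈ B) := by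
    intro h
    by_cases hh : h = 1
    · exact ⟨∅, zclosed_empty, fun a u hu => absurd hu (Set.notMem_empty u),
        ⟨0, Set.notMem_empty 0⟩, fun hcon => absurd hh hcon⟩
    · obtain ⟨B, b1, b2, b3, b4⟩ := genpt_aff hcone hZ hr (D.ρ h - LinearMap.id) (hfix h hh)
      exact ⟨B, b1, b2, b3, fun _ => b4⟩
  choose B b1 b2 b3 b4 using hB
  let S : D.G × Bool → Set (Fin D.w → ℂ) := fun p =>
    if p.1 = 1 then TL D LinearMap.id else
      if p.2 = true then TL D (D.ρ p.1 - LinearMap.id) else B p.1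
  have hS1 : ∀ b, S (1, b) = TL D LinearMap.id := fun b => if_pos rfl
  have hS2 : ∀ h : D.G, h ≠ 1 → S (h, true) = TL D (D.ρ h - LinearMap.id) := fun h hh =>
    (if_neg hh).trans (if_pos rfl)
  have hS3 : ∀ h : D.G, h ≠ 1 → S (h, false) = B h := fun h hh =>
    (if_neg hh).trans (if_neg (by simp))
  have hall : ∀ p, ZClosed (S p) ∧ (∀ a : ℂ, ∀ u ∈ S p, a • u ∈ S p) ∧ ∃ u, u ∉ S p := by
    rintro ⟨h, b⟩
    by_cases hh : h = 1
    · subst hh
      rw [hS1]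
      exact genpt_tan h1 h3 h4 hD hZ _ hker
    · cases b with
      | true =>
        rw [hS2 h hh]
        exact genpt_tan h1 h3 h4 hD hZ _ (hfix h hh)
      | false =>
        rw [hS3 h hh]
        exact ⟨b1 h, b2 h, b3 h⟩
  let A' : D.G × (D.G × Bool) → Set (Fin D.w → ℂ) := fun p => {u | D.ρ p.1 u ∈ S p.2}
  have hA'closed : ∀ p, ZClosed (A' p) := fun p => genp_zclosed_lin (hall p.2).1 (D.ρ p.1)
  refine ⟨⋃ p, A' p, zclosed_iUnion hA'closed, ?_, ?_, ?_, ?_⟩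
  · intro a u hu
    obtain ⟨p, hp⟩ := Set.mem_iUnion.1 hu
    refine Set.mem_iUnion.2 ⟨p, ?_⟩
    change D.ρ p.1 (a • u) ∈ S p.2
    rw [map_smul]
    exact (hall p.2).2.1 a _ hp
  · intro g u hu
    obtain ⟨p, hp⟩ := Set.mem_iUnion.1 hu
    refine Set.mem_iUnion.2 ⟨(p.1 * g⁻¹, p.2), ?_⟩
    change D.ρ (p.1 * g⁻¹) (D.ρ g u) ∈ S p.2
    rw [map_mul]
    change D.ρ p.1 (D.ρ g⁻¹ (D.ρ g u)) ∈ S p.2
    rw [genp_inv_rho]
    exact hp
  · obtain ⟨u, hu⟩ := genp_proper hA'closed (by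
      intro p
      obtain ⟨u, hu⟩ := (hall p.2).2.2
      refine ⟨D.ρ p.1⁻¹ u, ?_⟩
      change D.ρ p.1 (D.ρ p.1⁻¹ u) ∉ S p.2
      rw [genp_rho_inv]
      exact hu)
    refine ⟨u, fun hh => ?_⟩
    obtain ⟨p, hp⟩ := Set.mem_iUnion.1 hh
    exact hu p hp
  · intro u hu
    have hu' : ∀ k, u ∉ S k := by
      intro k hk
      apply hu
      refine Set.mem_iUnion.2 ⟨(1, k), ?_⟩
      change D.ρ 1 u ∈ S k
      rw [map_one]
      exact hk
    have htan : u ∉ TL D LinearMap.id := by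
      rw [← hS1 true]
      exact hu' _
    have hTL : ∀ h : D.G, h ≠ 1 → u ∉ TL D (D.ρ h - LinearMap.id) := by
      intro h hh
      rw [← hS2 h hh]
      exact hu' _
    have hBu : ∀ h : D.G, h ≠ 1 → u ∉ B h := by
      intro h hh
      rw [← hS3 h hh]
      exact hu' _
    refine ⟨⟨?_, ?_, ?_⟩, ?_⟩
    · intro z hz hzne hzu
      exact htan ⟨z, hzne, hz, hzu⟩
    · intro τ hτ _ z hz hcon
      apply hBu τ hτ
      refine b4 τ hτ u z hz ?_
      change D.ρ τ (u + z) - (u + z) = 0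
      rw [hcon, sub_self]
    · intro τ hτ _ z hz hzne _ hcon
      exact hTL τ hτ ⟨z, hzne, hz, hcon⟩
    · intro h hh hcon
      apply hTL h hh
      by_cases hz : D.ρ h u - u = 0
      · refine ⟨z0, hz0ne, hz0Z, ?_⟩
        change D.ρ h u - u ∈ TT D.F z0
        rw [hz]
        exact Submodule.zero_mem _
      · exact ⟨D.ρ h u - u, hz, hcon, genp_self hD.fd hcon⟩

end Pool.Agent.Helper87.PG
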