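import Pool.Agent.Helper87.PG.Stmts
import Pool.Agent.Helper55.VM.VTS

/-!
Module VTS2 of `MP_39dd1a_ag` (hand-in `FiniteModels`): the tangent space of `X` at a general
point.
-/

set_option autoImplicit false

namespace Pool.Agent.Helper87.PG

open MvPolynomial Pool.Agent.Helper48.VMRT Pool.Agent.Helper87.VM Pool.Agent.Helper87.TC

/-- The points over vectors moved by the involutions are not fixed points. -/
theorem vts2_nfx {D : VD} {m : ℕ} (hTD : TD D m) {u : Fin D.w → ℂ} (hu : NF D u)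
    {c₀ : ℂ} (hc₀ : c₀ ≠ 0) : c₀ • D.gr (ov 1 u) ∉ FX D := by
  have hD := hTD.good
  have hFx : ev D.F (ov 1 u) ≠ 0 := by
    intro h
    have h1 := ((hD.fd.zero (ov 1 u)).1 (fun j => congrFun h j)).1
    exact one_ne_zero h1
  have hne : D.gr (ov 1 u) ≠ 0 := seg_ne_zero (fun h0 => one_ne_zero (congrFun h0 none)) hFx
  rintro ⟨τ, hτ, hττ, hFX⟩
  obtain ⟨e, he0, he⟩ : ∃ e : ℂ, e ≠ 0 ∧
      D.ρY τ (c₀ • D.gr (ov 1 u)) = e • c₀ • D.gr (ov 1 u) := by
    rcases hFX with h1 | h1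
    · exact ⟨1, one_ne_zero, by rw [h1, one_smul]⟩
    · exact ⟨-1, neg_ne_zero.2 one_ne_zero, by rw [h1, neg_one_smul]⟩
  rw [map_smul, smul_comm e c₀] at he
  have he' := smul_right_injective _ hc₀ he
  change D.ρY τ (D.gr (ov 1 u)) = e • D.gr (ov 1 u) at he'
  rw [← (st_HTR D hD τ).1, oext_ov] at he'
  have h2 : seg (ov 1 u) (e • ev D.F (ov 1 u)) =
      seg (ov 1 (D.ρ τ u)) (ev D.F (ov 1 (D.ρ τ u))) := by
    rw [seg_smul_right]
    exact he'.symm
  obtain ⟨c, -, hc, -⟩ := seg_eq_seg h2 (by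
    rw [seg_smul_right]
    exact smul_ne_zero he0 hne)
  have hc1 : c = 1 := by
    have h4 := congrFun hc none
    rw [Pi.smul_apply, smul_eq_mul, ov_none, ov_none, mul_one] at h4
    exact h4.symm
  rw [hc1, one_smul] at hc
  apply hu τ hτ hττ
  funext i
  exact congrFun hc (some i)

theorem st_VTS2 : ST_VTS2 := by
  intro D m N E X DX hTR u c₀ hc₀ _ hu
  have hD := hTR.td.good
  have hF : ∀ j, HomE D.a (D.F j) := hD.fd.hom
  have hx0 : (ov 1 u : Option (Fin D.w) → ℂ) ≠ 0 := fun h => one_ne_zero (congrFun h none)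
  have hFx : ev D.F (ov 1 u) ≠ 0 := by
    intro h
    have h1 := ((hD.fd.zero (ov 1 u)).1 (fun j => congrFun h j)).1
    exact one_ne_zero h1
  set x0 : Option (Fin D.w) → ℂ := ov 1 u with hx0def
  have hnfx : c₀ • D.gr x0 ∉ FX D := vts2_nfx hTR.td hu hc₀
  have hyY : c₀ • D.gr x0 ∈ D.Y := yc_cone c₀ (D.gr_mem x0)
  set y0 := c₀ • D.gr x0 with hy0def
  have hK0 : ((4 ^ m : ℕ) : ℂ) ≠ 0 := Nat.cast_ne_zero.2 (pow_ne_zero _ (by norm_num))
  have hvX : ev E y0 ∈ X := hTR.res.img y0 hyY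
  have hv : dev E y0 y0 = ((4 ^ m : ℕ) : ℂ) • ev E y0 :=
    funext fun j => euler (hTR.res.hom j) y0
  have hne : D.gr x0 ≠ 0 := seg_ne_zero hx0 hFx
  have hv0 : ev E y0 ≠ 0 := by
    intro h
    rw [h, smul_zero] at hv
    exact smul_ne_zero hc₀ hne (hTR.res.imm y0 hyY hnfx _ hv)
  have ha0 : ((D.a : ℂ) + 1) ≠ 0 := by
    have h7 : ((D.a + 1 : ℕ) : ℂ) ≠ 0 := Nat.cast_ne_zero.2 (Nat.succ_ne_zero _)
    push_cast at h7
    exact h7
  -- the map
  let f : (Fin D.w → ℂ) →ₗ[ℂ] (Fin (N + 1) → ℂ) :=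
    { toFun := fun z => dev E y0 (vts_Th D x0 (ov 0 z))
      map_add' := by
        intro p q
        have e1 : (ov 0 (p + q) : Option (Fin D.w) → ℂ) = ov 0 p + ov 0 q := by
          rw [← ov_add, add_zero]
        rw [e1, vts_Th_add, dev_add]
      map_smul' := by
        intro c p
        have e1 : (ov 0 (c • p) : Option (Fin D.w) → ℂ) = c • ov 0 p := by
          rw [← ov_smul, mul_zero]
        rw [e1, vts_Th_smul, dev_smul]
        rfl }
  have hf : ∀ z, f z = dev E y0 (vts_Th D x0 (ov 0 z)) := fun z => rfl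
  -- the key fact
  have key : ∀ (z : Fin D.w → ℂ) (e : ℂ), f z + e • ev E y0 = 0 → z = 0 ∧ e = 0 := by
    intro z e h
    set e' : ℂ := e * ((4 ^ m : ℕ) : ℂ)⁻¹ with he'
    have h1 : dev E y0 (vts_Th D x0 (ov 0 z) + e' • y0) = 0 := by
      rw [dev_add, dev_smul, hv, smul_smul, he', mul_assoc, inv_mul_cancel₀ hK0, mul_one]
      exact h
    have h2 := hTR.res.imm y0 hyY hnfx _ h1
    have h5 : vts_Th D x0 (ov 0 z + (e' * c₀ * ((D.a : ℂ) + 1)⁻¹) • x0) = 0 := by
      rw [vts_Th_add, vts_Th_smul, vts_Th_self D hF, smul_smul, mul_assoc, inv_mul_cancel₀ ha0,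
        mul_one, mul_smul]
      exact h2
    have h6 := vts_Th_inj D hF x0 hx0 hFx _ h5
    have h8 : (0 : ℂ) + (e' * c₀ * ((D.a : ℂ) + 1)⁻¹) * 1 = 0 := congrFun h6 none
    rw [zero_add, mul_one] at h8
    have he0 : e' = 0 := by
      have h9 := (mul_eq_zero.1 h8).resolve_right (inv_ne_zero ha0)
      exact (mul_eq_zero.1 h9).resolve_right hc₀
    have he : e = 0 := (mul_eq_zero.1 he0).resolve_right (inv_ne_zero hK0)
    refine ⟨?_, he⟩
    rw [he0, zero_mul, zero_mul, zero_smul, add_zero] at h6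
    funext i
    exact congrFun h6 (some i)
  have hinj : Function.Injective f := by
    rw [← LinearMap.ker_eq_bot, LinearMap.ker_eq_bot']
    intro p hp
    exact (key p 0 (by rw [hp, zero_smul, add_zero])).1
  have hinf : LinearMap.range f ⊓ Submodule.span ℂ {ev E y0} = ⊥ := by
    rw [eq_bot_iff]
    intro y hy
    obtain ⟨⟨p, hp⟩, hy2⟩ := Submodule.mem_inf.1 hy
    obtain ⟨e, he⟩ := Submodule.mem_span_singleton.1 hy2
    have h1 := key p (-e) (by rw [hp, neg_smul, he, add_neg_cancel])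
    rw [Submodule.mem_bot, ← hp, h1.1, map_zero]
  refine ⟨f, hinj, fun z => rfl, hinf, ?_⟩
  have hle : LinearMap.range f ⊔ Submodule.span ℂ {ev E y0} ≤ tsp X (ev E y0) := by
    refine sup_le ?_ ?_
    · rintro _ ⟨p, rfl⟩
      rw [hf]
      refine dev_mem_tsp E hTR.res.img ?_
      rw [hy0def, tsp_smul hD.Ypm.cone hc₀]
      exact vts_Th_mem D x0 _
    · rw [Submodule.span_singleton_le_iff_mem]
      exact self_mem_tsp hTR.res.pm.cone hvX
  refine Submodule.eq_of_le_of_finrank_eq hle ?_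
  have h1 := Submodule.finrank_sup_add_finrank_inf_eq (LinearMap.range f)
    (Submodule.span ℂ {ev E y0})
  rw [hinf, finrank_bot, add_zero, LinearMap.finrank_range_of_inj hinj,
    finrank_span_singleton hv0, Module.finrank_fin_fun] at h1
  rw [h1]
  exact (hTR.res.pm.smooth _ hvX hv0).symm

end Pool.Agent.Helper87.PG
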